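import Mathlib

/-!
# Monochromatic convex polygons: the combinatorial part

Everything is stated for a linear order `α` with a two-colouring `col` of the pairs and a ternary
relation `sg` (later: the triple `u < v < w` of points of the plane turns to the left).
-/

namespace Pool.Agent.H158.CG

open Finset

variable {α : Type*} [LinearOrder α]

/-- The theorem of Erdős and Szekeres for a transitive relation `R` on the pairs `x < y`. -/
theorem es (R : α → α → Prop) (a b : ℕ) :
    ∀ X : Finset α, (∀ x ∈ X, ∀ y ∈ X, ∀ w ∈ X, x < y → y < w → R x y → R y w → R x w) →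
      a * b < X.card →
      (∃ Y ⊆ X, Y.card = a + 1 ∧ ∀ x ∈ Y, ∀ y ∈ Y, x < y → R x y) ∨
      (∃ Y ⊆ X, Y.card = b + 1 ∧ ∀ x ∈ Y, ∀ y ∈ Y, x < y → ¬ R x y) := by
  classical
  induction a with
  | zero =>
    intro X _ hX
    have h1 : X.Nonempty := by
      rw [← Finset.card_pos]; omega
    obtain ⟨x, hx⟩ := h1
    refine Or.inl ⟨{x}, by simpa using hx, by simp, ?_⟩
    intro y hy z hz h
    rw [Finset.mem_singleton] at hy hz
    subst hy; subst hz
    exact absurd h (lt_irrefl _)
  | succ a ih =>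
    intro X ht hX
    set M := X.filter (fun x => ∀ y ∈ X, y < x → ¬ R y x) with hM
    by_cases hb : b + 1 ≤ M.card
    · obtain ⟨Y, hY1, hY2⟩ := Finset.exists_subset_card_eq hb
      refine Or.inr ⟨Y, hY1.trans (Finset.filter_subset _ _), hY2, ?_⟩
      intro x hx y hy hxy
      have h1 := hY1 hy
      have h2 := hY1 hx
      rw [hM, Finset.mem_filter] at h1 h2
      exact h1.2 x h2.1 hxy
    · have h1 : a * b < (X \ M).card := by
        have h2 : (X \ M).card = X.card - M.card :=
          Finset.card_sdiff_of_subset (Finset.filter_subset _ _)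
        have h3 : (a + 1) * b = a * b + b := by ring
        omega
      rcases ih (X \ M) (fun x hx y hy w hw => ht x (Finset.mem_sdiff.1 hx).1 y
        (Finset.mem_sdiff.1 hy).1 w (Finset.mem_sdiff.1 hw).1) h1 with h | h
      · obtain ⟨Y, hY1, hY2, hY3⟩ := h
        have hne : Y.Nonempty := by rw [← Finset.card_pos]; omega
        set m := Y.min' hne with hm
        have hmY : m ∈ Y := Finset.min'_mem _ _
        have hmX := Finset.mem_sdiff.1 (hY1 hmY)
        have hmM : ¬ ∀ y ∈ X, y < m → ¬ R y m := fun h => hmX.2 (by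
          rw [hM, Finset.mem_filter]; exact ⟨hmX.1, h⟩)
        push Not at hmM
        obtain ⟨y, hy1, hy2, hy3⟩ := hmM
        have hlt : ∀ x ∈ Y, y < x := fun x hx => lt_of_lt_of_le hy2 (Finset.min'_le _ _ hx)
        have hyY : y ∉ Y := fun h => absurd (hlt y h) (lt_irrefl _)
        refine Or.inl ⟨insert y Y, ?_, ?_, ?_⟩
        · intro x hx
          rcases Finset.mem_insert.1 hx with rfl | hx
          · exact hy1
          · exact (Finset.mem_sdiff.1 (hY1 hx)).1
        · rw [Finset.card_insert_of_notMem hyY, hY2]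
        · intro x hx w hw hxw
          rcases Finset.mem_insert.1 hx with rfl | hx
          · rcases Finset.mem_insert.1 hw with rfl | hw
            · exact absurd hxw (lt_irrefl _)
            · rcases eq_or_lt_of_le (Finset.min'_le _ _ hw : Y.min' hne ≤ w) with h4 | h4
              · rw [← h4]; exact hy3
              · exact ht _ hy1 m hmX.1 w (Finset.mem_sdiff.1 (hY1 hw)).1 hy2 h4 hy3
                  (hY3 m hmY w hw h4)
          · rcases Finset.mem_insert.1 hw with h | hw
            · rw [h] at hxw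
              exact absurd (hxw.trans (hlt x hx)) (lt_irrefl _)
            · exact hY3 x hx w hw hxw
      · obtain ⟨Y, hY1, hY2, hY3⟩ := h
        exact Or.inr ⟨Y, hY1.trans Finset.sdiff_subset, hY2, hY3⟩

/-- Nested selection: from `(2 (|O| + n)) ^ n` elements one can select `n` elements such that the
colour of a pair `x < y` depends on `x` only, and the sign of a triple `o < v < z` depends on `o`
and `v` only, also for the given observers `o ∈ O`. -/
theorem nested (col : α → α → Bool) (sg : α → α → α → Prop)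
    (H : ∀ o o' v z z', o < v → o' < v → v < z → v < z' →
      sg o v z → ¬ sg o v z' → sg o' v z' → sg o' v z) (n : ℕ) :
    ∀ O S : Finset α, (∀ o ∈ O, ∀ s ∈ S, o < s) → (2 * (O.card + n)) ^ n ≤ S.card →
      ∃ T ⊆ S, T.card = n ∧
        (∀ x ∈ T, ∀ y ∈ T, ∀ y' ∈ T, x < y → x < y' → col x y = col x y') ∧
        (∀ o ∈ O ∪ T, ∀ v ∈ T, ∀ z ∈ T, ∀ z' ∈ T, o < v → v < z → v < z' →
          (sg o v z ↔ sg o v z')) := by
  classical
  induction n with
  | zero =>
    intro O S _ _
    exact ⟨∅, by simp, by simp, by simp, by simp⟩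
  | succ n ih =>
    intro O S hO hS
    set T' := (2 * (O.card + 1 + n)) ^ n with hT'
    have hT1 : 1 ≤ T' := Nat.one_le_pow _ _ (by omega)
    have hS2 : 2 * (O.card + 1) * T' ≤ S.card := by
      refine le_trans ?_ hS
      have h1 : (2 * (O.card + (n + 1))) ^ (n + 1) = 2 * (O.card + 1 + n) * T' := by
        rw [hT', pow_succ, mul_comm, show O.card + (n + 1) = O.card + 1 + n by ring]
      rw [h1]
      exact Nat.mul_le_mul_right _ (by omega)
    have hne : S.Nonempty := by
      rw [← Finset.card_pos]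
      exact lt_of_lt_of_le (by positivity) hS2
    set v := S.min' hne with hv
    have hvS : v ∈ S := Finset.min'_mem _ _
    have hvlt : ∀ z ∈ S.erase v, v < z := fun z hz =>
      lt_of_le_of_ne (Finset.min'_le _ _ (Finset.mem_of_mem_erase hz))
        (Ne.symm (Finset.ne_of_mem_erase hz))
    let f : α → Bool × ℕ := fun z => (col v z, (O.filter (fun o => sg o v z)).card)
    have hf : ∀ z ∈ S.erase v, f z ∈ (Finset.univ : Finset Bool) ×ˢ Finset.range (O.card + 1) := by
      intro z _
      rw [Finset.mem_product]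
      exact ⟨Finset.mem_univ _, Finset.mem_range.2
        (Nat.lt_succ_of_le (Finset.card_filter_le _ _))⟩
    have hcard : ((Finset.univ : Finset Bool) ×ˢ Finset.range (O.card + 1)).card * (T' - 1) <
        (S.erase v).card := by
      rw [Finset.card_product, Finset.card_range, Finset.card_univ, Fintype.card_bool,
        Finset.card_erase_of_mem hvS]
      obtain ⟨t, ht⟩ : ∃ t, T' = t + 1 := ⟨T' - 1, by omega⟩
      rw [ht] at hS2 ⊢
      have h3 : 2 * (O.card + 1) * (t + 1) = 2 * (O.card + 1) * t + 2 * (O.card + 1) := by ring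
      rw [h3] at hS2
      have h4 : 2 * (O.card + 1) * (t + 1 - 1) = 2 * (O.card + 1) * t := by
        rw [Nat.add_sub_cancel]
      rw [h4]
      omega
    obtain ⟨⟨b, r⟩, _, hbr⟩ :=
      Finset.exists_lt_card_fiber_of_mul_lt_card_of_maps_to hf hcard
    set S' := (S.erase v).filter (fun z => f z = (b, r)) with hS'
    have hS'S : ∀ z ∈ S', z ∈ S.erase v := fun z hz => Finset.mem_of_mem_filter _ hz
    have hcol : ∀ z ∈ S', col v z = b := fun z hz =>
      congrArg Prod.fst (Finset.mem_filter.1 hz).2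
    have hrank : ∀ z ∈ S', (O.filter (fun o => sg o v z)).card = r := fun z hz =>
      congrArg Prod.snd (Finset.mem_filter.1 hz).2
    have hOv : ∀ o ∈ O, o < v := fun o ho => hO o ho v hvS
    have hsg : ∀ z ∈ S', ∀ z' ∈ S', ∀ o ∈ O, (sg o v z ↔ sg o v z') := by
      intro z hz z' hz' o ho
      have hz1 := hvlt z (hS'S z hz)
      have hz1' := hvlt z' (hS'S z' hz')
      have hc : O.filter (fun o => sg o v z) ⊆ O.filter (fun o => sg o v z') ∨
          O.filter (fun o => sg o v z') ⊆ O.filter (fun o => sg o v z) := by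
        by_contra hcon
        push Not at hcon
        obtain ⟨h1, h2⟩ := hcon
        rw [Finset.not_subset] at h1 h2
        obtain ⟨o1, ho1, ho1'⟩ := h1
        obtain ⟨o2, ho2, ho2'⟩ := h2
        rw [Finset.mem_filter] at ho1 ho1' ho2 ho2'
        refine ho2' ⟨ho2.1, H o1 o2 v z z' (hOv _ ho1.1) (hOv _ ho2.1) hz1 hz1' ho1.2 ?_ ho2.2⟩
        exact fun h => ho1' ⟨ho1.1, h⟩
      have he : O.filter (fun o => sg o v z) = O.filter (fun o => sg o v z') := by
        rcases hc with hc | hc
        · exact Finset.eq_of_subset_of_card_le hc (by rw [hrank z hz, hrank z' hz'])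
        · exact (Finset.eq_of_subset_of_card_le hc (by rw [hrank z hz, hrank z' hz'])).symm
      have h5 : o ∈ O.filter (fun o => sg o v z) ↔ o ∈ O.filter (fun o => sg o v z') := by
        rw [he]
      simpa [Finset.mem_filter, ho] using h5
    have hvO : v ∉ O := fun h => absurd (hOv v h) (lt_irrefl _)
    have hO' : ∀ o ∈ insert v O, ∀ s ∈ S', o < s := by
      intro o ho s hs
      rcases Finset.mem_insert.1 ho with rfl | ho
      · exact hvlt s (hS'S s hs)
      · exact hO o ho s (Finset.mem_of_mem_erase (hS'S s hs))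
    have hcS' : (2 * ((insert v O).card + n)) ^ n ≤ S'.card := by
      rw [Finset.card_insert_of_notMem hvO]
      have : T' - 1 < S'.card := hbr
      omega
    obtain ⟨T, hTS, hTc, hT1', hT2'⟩ := ih (insert v O) S' hO' hcS'
    have hvT : v ∉ T := fun h => absurd (hvlt v (hS'S v (hTS h))) (lt_irrefl _)
    have hvltT : ∀ z ∈ T, v < z := fun z hz => hvlt z (hS'S z (hTS hz))
    have hmem : ∀ x ∈ T, ∀ y ∈ insert v T, x < y → y ∈ T := by
      intro x hx y hy hxy
      rcases Finset.mem_insert.1 hy with rfl | hy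
      · exact absurd (hxy.trans (hvltT x hx)) (lt_irrefl _)
      · exact hy
    have hmem' : ∀ y ∈ insert v T, v < y → y ∈ T := by
      intro y hy hxy
      rcases Finset.mem_insert.1 hy with rfl | hy
      · exact absurd hxy (lt_irrefl _)
      · exact hy
    refine ⟨insert v T, ?_, ?_, ?_, ?_⟩
    · intro x hx
      rcases Finset.mem_insert.1 hx with rfl | hx
      · exact hvS
      · exact Finset.mem_of_mem_erase (hS'S x (hTS hx))
    · rw [Finset.card_insert_of_notMem hvT, hTc]
    · intro x hx y hy y' hy' hxy hxy'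
      rcases Finset.mem_insert.1 hx with h | hx
      · subst h
        rw [hcol y (hTS (hmem' y hy hxy)), hcol y' (hTS (hmem' y' hy' hxy'))]
      · exact hT1' x hx y (hmem x hx y hy hxy) y' (hmem x hx y' hy' hxy') hxy hxy'
    · intro o ho w hw z hz z' hz' how hwz hwz'
      rcases Finset.mem_insert.1 hw with h | hw
      · subst h
        have hoO : o ∈ O := by
          rcases Finset.mem_union.1 ho with ho | ho
          · exact ho
          · rcases Finset.mem_insert.1 ho with h | ho
            · exact absurd how (by rw [h]; exact lt_irrefl _)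
            · exact absurd (how.trans (hvltT o ho)) (lt_irrefl _)
        exact hsg z (hTS (hmem' z hz hwz)) z' (hTS (hmem' z' hz' hwz')) o hoO
      · refine hT2' o ?_ w hw z (hmem w hw z hz hwz) z' (hmem w hw z' hz' hwz') how hwz hwz'
        rw [Finset.mem_union] at ho ⊢
        rcases ho with ho | ho
        · exact Or.inl (Finset.mem_insert_of_mem ho)
        · rcases Finset.mem_insert.1 ho with rfl | ho
          · exact Or.inl (Finset.mem_insert_self _ _)
          · exact Or.inr ho

/-- A monochromatic clique of `k + 2` elements all of whose triples have the same sign. -/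
theorem homogeneous (col : α → α → Bool) (sg : α → α → α → Prop)
    (H : ∀ o o' v z z', o < v → o' < v → v < z → v < z' →
      sg o v z → ¬ sg o v z' → sg o' v z' → sg o' v z)
    (Htr : ∀ x y w z, x < y → y < w → w < z → sg x y z → sg y w z → sg x w z)
    (k : ℕ) (P : Finset α) (hP : (2 * (2 * k ^ 2 + 2)) ^ (2 * k ^ 2 + 2) ≤ P.card) :
    ∃ Q ⊆ P, Q.card = k + 2 ∧ (∃ b, ∀ x ∈ Q, ∀ y ∈ Q, x < y → col x y = b) ∧
      ((∀ x ∈ Q, ∀ y ∈ Q, ∀ w ∈ Q, x < y → y < w → sg x y w) ∨
        (∀ x ∈ Q, ∀ y ∈ Q, ∀ w ∈ Q, x < y → y < w → ¬ sg x y w)) := by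
  classical
  obtain ⟨T, hTP, hTc, hT1, hT2⟩ := nested col sg H (2 * k ^ 2 + 2) ∅ P (by simp)
    (by simpa using hP)
  have hne : T.Nonempty := by rw [← Finset.card_pos]; omega
  set z := T.max' hne with hz
  have hzT : z ∈ T := Finset.max'_mem _ _
  set X := T.erase z with hX
  have hXc : X.card = 2 * k ^ 2 + 1 := by
    rw [hX, Finset.card_erase_of_mem hzT, hTc]; rfl
  have hXlt : ∀ x ∈ X, x < z := fun x hx =>
    lt_of_le_of_ne (Finset.le_max' _ _ (Finset.mem_of_mem_erase hx)) (Finset.ne_of_mem_erase hx)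
  have hXT : ∀ x ∈ X, x ∈ T := fun x hx => Finset.mem_of_mem_erase hx
  obtain ⟨b, _, hb⟩ := Finset.exists_lt_card_fiber_of_mul_lt_card_of_maps_to
    (s := X) (t := (Finset.univ : Finset Bool)) (f := fun x => col x z) (n := k ^ 2)
    (fun _ _ => Finset.mem_univ _) (by
      rw [Finset.card_univ, Fintype.card_bool, hXc]; omega)
  set X' := X.filter (fun x => col x z = b) with hX'
  have hX'X : ∀ x ∈ X', x ∈ X := fun x hx => Finset.mem_of_mem_filter _ hx
  have hX'b : ∀ x ∈ X', col x z = b := fun x hx => (Finset.mem_filter.1 hx).2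
  have hkey : ∃ Y ⊆ X', Y.card = k + 1 ∧ ((∀ x ∈ Y, ∀ y ∈ Y, x < y → sg x y z) ∨
      (∀ x ∈ Y, ∀ y ∈ Y, x < y → ¬ sg x y z)) := by
    rcases es (fun x y => sg x y z) k k X' (fun x _ y _ w hw h1 h2 h3 h4 =>
      Htr x y w z h1 h2 (hXlt w (hX'X w hw)) h3 h4) (by rw [← pow_two]; exact hb) with h | h
    · obtain ⟨Y, h1, h2, h3⟩ := h
      exact ⟨Y, h1, h2, Or.inl h3⟩
    · obtain ⟨Y, h1, h2, h3⟩ := h
      exact ⟨Y, h1, h2, Or.inr h3⟩
  obtain ⟨Y, hY1, hY2, hY3⟩ := hkey
  have hYT : ∀ x ∈ Y, x ∈ T := fun x hx => hXT x (hX'X x (hY1 hx))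
  have hYlt : ∀ x ∈ Y, x < z := fun x hx => hXlt x (hX'X x (hY1 hx))
  have hzY : z ∉ Y := fun h => absurd (hYlt z h) (lt_irrefl _)
  have hQT : ∀ x ∈ insert z Y, x ∈ T := by
    intro x hx
    rcases Finset.mem_insert.1 hx with rfl | hx
    · exact hzT
    · exact hYT x hx
  have hQY : ∀ x ∈ insert z Y, ∀ y ∈ insert z Y, x < y → x ∈ Y := by
    intro x hx y hy hxy
    rcases Finset.mem_insert.1 hx with h | hx
    · exfalso
      rw [h] at hxy
      exact absurd hxy (not_lt.2 (Finset.le_max' _ _ (hQT y hy)))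
    · exact hx
  refine ⟨insert z Y, fun x hx => hTP (hQT x hx), ?_, ⟨b, ?_⟩, ?_⟩
  · rw [Finset.card_insert_of_notMem hzY, hY2]
  · intro x hx y hy hxy
    have hxY := hQY x hx y hy hxy
    rw [hT1 x (hYT x hxY) y (hQT y hy) z hzT hxy (hYlt x hxY)]
    exact hX'b x (hY1 hxY)
  · have hs : ∀ x ∈ insert z Y, ∀ y ∈ insert z Y, ∀ w ∈ insert z Y, x < y → y < w →
        (x ∈ Y ∧ y ∈ Y ∧ (sg x y w ↔ sg x y z)) := by
      intro x hx y hy w hw hxy hyw
      have hxY := hQY x hx y hy hxy
      have hyY := hQY y hy w hw hyw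
      exact ⟨hxY, hyY, hT2 x (Finset.mem_union_right _ (hYT x hxY)) y (hYT y hyY) w (hQT w hw) z
        hzT hxy hyw (hYlt y hyY)⟩
    rcases hY3 with hY3 | hY3
    · left
      intro x hx y hy w hw hxy hyw
      obtain ⟨h1, h2, h3⟩ := hs x hx y hy w hw hxy hyw
      exact h3.2 (hY3 x h1 y h2 hxy)
    · right
      intro x hx y hy w hw hxy hyw h
      obtain ⟨h1, h2, h3⟩ := hs x hx y hy w hw hxy hyw
      exact hY3 x h1 y h2 hxy (h3.1 h)

end Pool.Agent.H158.CG
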