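import Mathlib

/-!
# Monochromatic convex polygons: orientations of triples of points of the plane

The points are ordered lexicographically (`ℝ ×ₗ ℝ`).
-/

namespace Pool.Agent.H158.CG

open Finset

/-- Twice the signed area of the triangle `u v w`. -/
def orient (u v w : ℝ × ℝ) : ℝ := (v.1 - u.1) * (w.2 - u.2) - (v.2 - u.2) * (w.1 - u.1)

/-- The vectors in the right half-plane. -/
def LexPos (a1 a2 : ℝ) : Prop := 0 < a1 ∨ (a1 = 0 ∧ 0 < a2)

theorem lexPos_sub {u v : ℝ ×ₗ ℝ} (h : u < v) :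
    LexPos ((ofLex v).1 - (ofLex u).1) ((ofLex v).2 - (ofLex u).2) := by
  rw [Prod.Lex.lt_iff] at h
  rcases h with h | ⟨h1, h2⟩
  · left; exact sub_pos.2 h
  · right; exact ⟨sub_eq_zero.2 h1.symm, sub_pos.2 h2⟩

/-- Transitivity of the order of the directions in the right half-plane. -/
theorem det_trans {a1 a2 b1 b2 c1 c2 : ℝ} (ha : LexPos a1 a2) (hb : LexPos b1 b2)
    (hc : LexPos c1 c2) (hab : 0 < a1 * b2 - a2 * b1) (hbc : 0 ≤ b1 * c2 - b2 * c1) :
    0 < a1 * c2 - a2 * c1 := by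
  by_contra hcon
  push Not at hcon
  have ha1 : 0 ≤ a1 := by rcases ha with h | h <;> [exact h.le; exact h.1.ge]
  have hb1 : 0 ≤ b1 := by rcases hb with h | h <;> [exact h.le; exact h.1.ge]
  have hc1 : 0 ≤ c1 := by rcases hc with h | h <;> [exact h.le; exact h.1.ge]
  have e1 : (a1 * c2 - a2 * c1) * b1 = (b1 * c2 - b2 * c1) * a1 + (a1 * b2 - a2 * b1) * c1 := by
    ring
  have h1 : (a1 * c2 - a2 * c1) * b1 ≤ 0 := mul_nonpos_of_nonpos_of_nonneg hcon hb1
  have h2 : 0 ≤ (b1 * c2 - b2 * c1) * a1 := mul_nonneg hbc ha1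
  have h3 : 0 ≤ (a1 * b2 - a2 * b1) * c1 := mul_nonneg hab.le hc1
  have h4 : (a1 * b2 - a2 * b1) * c1 = 0 := by linarith
  have h5 : c1 = 0 := by
    rcases mul_eq_zero.1 h4 with h | h
    · exact absurd h hab.ne'
    · exact h
  have hc2 : 0 < c2 := by
    rcases hc with h | h
    · rw [h5] at h; exact absurd h (lt_irrefl _)
    · exact h.2
  rw [h5] at hcon
  have h6 : a1 = 0 := by
    by_contra h
    have : 0 < a1 := lt_of_le_of_ne ha1 (Ne.symm h)
    have := mul_pos this hc2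
    linarith
  have ha2 : 0 < a2 := by
    rcases ha with h | h
    · rw [h6] at h; exact absurd h (lt_irrefl _)
    · exact h.2
  rw [h6] at hab
  have := mul_nonneg ha2.le hb1
  linarith

/-- The triple `u v w` turns to the left. -/
def Lft (u v w : ℝ ×ₗ ℝ) : Prop := 0 < orient (ofLex u) (ofLex v) (ofLex w)

theorem lft_iff (u v w : ℝ ×ₗ ℝ) : Lft u v w ↔
    0 < ((ofLex v).1 - (ofLex u).1) * ((ofLex w).2 - (ofLex v).2) -
      ((ofLex v).2 - (ofLex u).2) * ((ofLex w).1 - (ofLex v).1) := by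
  unfold Lft orient
  constructor <;> intro h <;> nlinarith

theorem not_crossing (o o' v z z' : ℝ ×ₗ ℝ) (h1 : o < v) (h2 : o' < v) (h3 : v < z)
    (h4 : v < z') (h5 : Lft o v z) (h6 : ¬ Lft o v z') (h7 : Lft o' v z') : Lft o' v z := by
  rw [lft_iff] at *
  by_contra h8
  push Not at h6 h8
  have a := lexPos_sub h1
  have a' := lexPos_sub h2
  have c := lexPos_sub h3
  have c' := lexPos_sub h4
  have e1 := det_trans a' c' a h7 (by linarith)
  have e2 := det_trans a c a' h5 (by linarith)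
  linarith

theorem lft_trans (x y w z : ℝ ×ₗ ℝ) (h1 : x < y) (h2 : y < w) (h3 : w < z)
    (h4 : Lft x y z) (h5 : Lft y w z) : Lft x w z := by
  have a := lexPos_sub (h1.trans (h2.trans h3))
  have b := lexPos_sub (h2.trans h3)
  have c := lexPos_sub h3
  unfold Lft orient at *
  have e := det_trans a b c (by nlinarith) (by nlinarith)
  nlinarith

end Pool.Agent.H158.CG
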