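import Mathlib
import Pool.Agent.H158.CG.Comb
import Pool.Agent.H158.CG.Geom

/-!
# Monochromatic convex polygons: convex position
-/

namespace Pool.Agent.H158.CG

open Finset

theorem convex_half (s : ℝ) (u q : ℝ × ℝ) : Convex ℝ {x | x = u ∨ 0 < s * orient u q x} := by
  intro x hx y hy a b ha hb hab
  have hb' : b = 1 - a := by linarith
  have e1 : s * orient u q (a • x + b • y) = a * (s * orient u q x) + b * (s * orient u q y) := by
    subst hb'
    simp only [orient, Prod.fst_add, Prod.snd_add, Prod.smul_fst, Prod.smul_snd, smul_eq_mul]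
    ring
  have e0 : orient u q u = 0 := by simp [orient]
  rcases eq_or_lt_of_le ha with ha0 | ha0
  · have h1 : b = 1 := by linarith
    rw [← ha0, h1, zero_smul, one_smul, zero_add]
    exact hy
  rcases eq_or_lt_of_le hb with hb0 | hb0
  · have h1 : a = 1 := by linarith
    rw [← hb0, h1, zero_smul, one_smul, add_zero]
    exact hx
  rcases hx with hx | hx
  · rcases hy with hy | hy
    · left
      rw [hx, hy, ← add_smul, hab, one_smul]
    · right
      rw [e1, hx, e0]
      have := mul_pos hb0 hy
      linarith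
  · rcases hy with hy | hy
    · right
      rw [e1, hy, e0]
      have := mul_pos ha0 hx
      linarith
    · right
      rw [e1]
      have := mul_pos ha0 hx
      have := mul_pos hb0 hy
      linarith

theorem notMem_hull (s : ℝ) (Q : Set (ℝ × ℝ)) (q u : ℝ × ℝ) (hu : u ≠ q)
    (h : ∀ x ∈ Q, x ≠ q → x ≠ u → 0 < s * orient u q x) :
    q ∉ convexHull ℝ (Q \ {q}) := by
  intro hq
  have h1 : Q \ {q} ⊆ {x | x = u ∨ 0 < s * orient u q x} := by
    rintro x ⟨hx1, hx2⟩
    by_cases hxu : x = u
    · exact Or.inl hxu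
    · exact Or.inr (h x hx1 hx2 hxu)
  have h2 := convexHull_min h1 (convex_half s u q) hq
  rcases h2 with h2 | h2
  · exact hu h2.symm
  · have : orient u q q = 0 := by unfold orient; ring
    rw [this] at h2
    simp at h2

theorem convexPos (Q : Finset (ℝ ×ₗ ℝ)) (s : ℝ)
    (h : ∀ x ∈ Q, ∀ y ∈ Q, ∀ w ∈ Q, x < y → y < w →
      0 < s * orient (ofLex x) (ofLex y) (ofLex w)) (q : ℝ ×ₗ ℝ) (hq : q ∈ Q) :
    ofLex q ∉ convexHull ℝ ((ofLex '' (Q : Set (ℝ ×ₗ ℝ))) \ {ofLex q}) := by
  classical
  have cyc : ∀ u v w : ℝ × ℝ, orient u v w = orient w u v := by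
    intro u v w; unfold orient; ring
  by_cases hL : (Q.filter (fun x => x < q)).Nonempty
  · set u := (Q.filter (fun x => x < q)).max' hL with hu
    have hu1 := Finset.mem_filter.1 (Finset.max'_mem _ hL)
    rw [← hu] at hu1
    refine notMem_hull s _ (ofLex q) (ofLex u) (fun h => hu1.2.ne (ofLex.injective h)) ?_
    rintro _ ⟨x, hx, rfl⟩ hxq hxu
    have hxq' : x ≠ q := fun h => hxq (by rw [h])
    have hxu' : x ≠ u := fun h => hxu (by rw [h])
    rcases lt_or_gt_of_ne hxq' with h1 | h1
    · have h2 : x < u := lt_of_le_of_ne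
        (Finset.le_max' _ _ (Finset.mem_filter.2 ⟨hx, h1⟩)) hxu'
      have h3 := h x hx u hu1.1 q hq h2 hu1.2
      rw [cyc (ofLex u) (ofLex q) (ofLex x)]
      exact h3
    · exact h u hu1.1 q hq x hx hu1.2 h1
  · have hmin : ∀ x ∈ Q, x ≠ q → q < x := by
      intro x hx hxq
      rcases lt_or_gt_of_ne hxq with h1 | h1
      · exact absurd ⟨x, Finset.mem_filter.2 ⟨hx, h1⟩⟩ hL
      · exact h1
    have hne : Q.Nonempty := ⟨q, hq⟩
    set u := Q.max' hne with hu
    have huQ : u ∈ Q := Finset.max'_mem _ _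
    by_cases huq : u = q
    · have hall : (ofLex '' (Q : Set (ℝ ×ₗ ℝ))) \ {ofLex q} = ∅ := by
        ext y
        simp only [Set.mem_sdiff, Set.mem_image, Set.mem_singleton_iff, Set.mem_empty_iff_false,
          iff_false, not_and, not_not]
        rintro ⟨x, hx, rfl⟩
        by_contra hcon
        have h1 := hmin x hx (fun h => hcon (by rw [h]))
        have h2 := Finset.le_max' Q x hx
        rw [← hu, huq] at h2
        exact absurd h1 (not_lt.2 h2)
      rw [hall, convexHull_empty]
      exact fun h => h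
    · refine notMem_hull s _ (ofLex q) (ofLex u) (fun h => huq (ofLex.injective h)) ?_
      rintro _ ⟨x, hx, rfl⟩ hxq hxu
      have hxq' : x ≠ q := fun h => hxq (by rw [h])
      have hxu' : x ≠ u := fun h => hxu (by rw [h])
      have h1 := hmin x hx hxq'
      have h2 : x < u := lt_of_le_of_ne (Finset.le_max' _ _ hx) hxu'
      have h3 := h q hq x hx u huQ h1 h2
      rw [cyc (ofLex q) (ofLex x) (ofLex u)] at h3
      exact h3

/-- Three distinct points with orientation zero are collinear. -/
theorem collinear_of_orient {x y z : ℝ × ℝ} (hxy : x ≠ y) (h : orient x y z = 0) :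
    Collinear ℝ {x, y, z} := by
  rw [collinear_iff_of_mem (p₀ := x) (by simp)]
  refine ⟨y - x, ?_⟩
  intro p hp
  simp only [Set.mem_insert_iff, Set.mem_singleton_iff] at hp
  rcases hp with rfl | rfl | rfl
  · exact ⟨0, by simp⟩
  · exact ⟨1, by simp⟩
  · unfold orient at h
    by_cases h1 : y.1 - x.1 = 0
    · have h2 : y.2 - x.2 ≠ 0 := by
        intro h2
        exact hxy (Prod.ext (by linarith) (by linarith))
      refine ⟨(p.2 - x.2) / (y.2 - x.2), ?_⟩
      have h3 : p.1 - x.1 = 0 := by
        rw [h1, zero_mul, zero_sub, neg_eq_zero] at h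
        exact (mul_eq_zero.1 h).resolve_left h2
      ext
      · simp [h1]; linarith
      · simp; field_simp; ring
    · refine ⟨(p.1 - x.1) / (y.1 - x.1), ?_⟩
      ext
      · simp; field_simp; ring
      · simp; field_simp; linarith

end Pool.Agent.H158.CG
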